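import Mathlib

set_option autoImplicit false

namespace Pool.Agent.Results.MP_764a00_al.SolidSubgroups

open Cardinal TensorProduct

universe u v

/-- `G` admits an Archimedean lattice ordering. -/
def ArchLatticeOrderable (G : Type u) [AddCommGroup G] : Prop :=
  ∃ _ : Lattice G,
    (∀ a b c : G, a ≤ b → c + a ≤ c + b) ∧
    (∀ a b : G, (∀ n : ℕ, n • a ≤ b) → a ≤ 0)

/-- torsion-free, as in the frozen statement -/
def TorsionFree (G : Type u) [AddCommGroup G] : Prop :=
  ∀ g : G, ∀ n : ℕ, n ≠ 0 → n • g = 0 → g = 0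

theorem real_embedding (A : Type u) [AddCommGroup A] (hA : TorsionFree A)
    (hc : #A ≤ 𝔠) : ∃ e : A →+ ℝ, Function.Injective e := by
  classical
  have hflat : Module.Flat ℤ A := by
    rw [Module.Flat.flat_iff_torsion_eq_bot_of_isBezout, ← Submodule.isTorsionFree_iff_torsion_eq_bot]
    refine Module.isTorsionFree_iff_smul_eq_zero.2 ?_
    intro r m h
    by_contra hcon
    push Not at hcon
    apply hcon.2
    apply hA m r.natAbs (by simpa using hcon.1)
    rcases Int.natAbs_eq r with h1 | h1
    · rw [h1] at h; simpa using h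
    · rw [h1] at h; simpa using h
  let ι1 : A →ₗ[ℤ] ℚ ⊗[ℤ] A := TensorProduct.mk ℤ ℚ A 1
  have hι1 : Function.Injective ι1 := by
    have h1 : Function.Injective (LinearMap.rTensor A (Algebra.linearMap ℤ ℚ)) :=
      Module.Flat.rTensor_preserves_injective_linearMap _ (fun a b h => by simpa using h)
    have h2 : ∀ a, ι1 a = (LinearMap.rTensor A (Algebra.linearMap ℤ ℚ))
        ((TensorProduct.lid ℤ A).symm a) := by
      intro a
      simp only [TensorProduct.lid_symm_apply, LinearMap.rTensor_tmul, Algebra.linearMap_apply, map_one]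
      rfl
    intro a b hab
    rw [h2, h2] at hab
    exact (TensorProduct.lid ℤ A).symm.injective (h1 hab)
  have hcardV : #(ℚ ⊗[ℤ] A) ≤ 𝔠 := by
    have hs : Function.Surjective
        (fun l : List (ℚ × A) => (l.map (fun p => (p.1 ⊗ₜ[ℤ] p.2 : ℚ ⊗[ℤ] A))).sum) := by
      intro x
      induction x using TensorProduct.induction_on with
      | zero => exact ⟨[], by simp⟩
      | tmul q a => exact ⟨[(q, a)], by simp⟩
      | add x y hx hy =>
        obtain ⟨l, hl⟩ := hx
        obtain ⟨m, hm⟩ := hy
        refine ⟨l ++ m, ?_⟩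
        simp only [List.map_append, List.sum_append]
        exact congrArg₂ (· + ·) hl hm
    refine (mk_le_of_surjective hs).trans ((mk_list_le_max _).trans (max_le aleph0_le_continuum ?_))
    rw [mk_prod]
    have hq : Cardinal.lift.{u} #ℚ ≤ 𝔠 := by
      rw [Cardinal.mkRat]; simpa using aleph0_le_continuum
    have ha : Cardinal.lift.{0} #A ≤ 𝔠 := by simpa using hc
    exact (mul_le_mul' hq ha).trans (by rw [continuum_mul_self])
  let bV := Module.Basis.ofVectorSpace ℚ (ℚ ⊗[ℤ] A)
  let bR := Module.Basis.ofVectorSpace ℚ ℝ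
  have hR : #(Module.Basis.ofVectorSpaceIndex ℚ ℝ) = 𝔠 := by
    rw [bR.mk_eq_rank'', Real.rank_rat_real]
  have hemb : Nonempty (Module.Basis.ofVectorSpaceIndex ℚ (ℚ ⊗[ℤ] A) ↪
      Module.Basis.ofVectorSpaceIndex ℚ ℝ) := by
    rw [← Cardinal.lift_mk_le', hR]
    have h3 : #(Module.Basis.ofVectorSpaceIndex ℚ (ℚ ⊗[ℤ] A)) ≤ 𝔠 := (mk_set_le _).trans hcardV
    simpa using h3
  obtain ⟨j⟩ := hemb
  let g : (ℚ ⊗[ℤ] A) →ₗ[ℚ] ℝ := bV.constr ℚ (fun i => bR (j i))
  have hg : Function.Injective g := by
    have hli : LinearIndependent ℚ (fun i => bR (j i)) := bR.linearIndependent.comp j j.injective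
    exact bV.injective_constr_of_linearIndependent hli
  exact ⟨g.toAddMonoidHom.comp ι1.toAddMonoidHom, hg.comp hι1⟩

theorem orderable_of_embedding {H : Type u} [AddCommGroup H] {I : Type v} (f : H →+ (I → ℝ))
    (hf : Function.Injective f) (hs : ∀ x : H, ∃ z : H, f z = f x ⊔ 0) :
    ArchLatticeOrderable H := by
  classical
  choose p hp using hs
  have hsup : ∀ x y : H, f (y + p (x - y)) = f x ⊔ f y := by
    intro x y
    rw [map_add, hp, map_sub]
    funext i
    simp only [Pi.add_apply, Pi.sup_apply, Pi.sub_apply, Pi.zero_apply]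
    rcases le_total (f x i) (f y i) with h | h
    · rw [sup_eq_right.2 h, sup_eq_right.2 (by linarith)]; ring
    · rw [sup_eq_left.2 h, sup_eq_left.2 (by linarith)]; ring
  have hinf : ∀ x y : H, f (x - p (x - y)) = f x ⊓ f y := by
    intro x y
    rw [map_sub, hp, map_sub]
    funext i
    simp only [Pi.sup_apply, Pi.inf_apply, Pi.sub_apply, Pi.zero_apply]
    rcases le_total (f x i) (f y i) with h | h
    · rw [inf_eq_left.2 h, sup_eq_right.2 (by linarith)]; ring
    · rw [inf_eq_right.2 h, sup_eq_left.2 (by linarith)]; ring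
  let L : Lattice H :=
    { le := fun a b => f a ≤ f b
      le_refl := fun a => le_refl (f a)
      le_trans := fun a b c h1 h2 => le_trans h1 h2
      le_antisymm := fun a b h1 h2 => hf (le_antisymm h1 h2)
      sup := fun x y => y + p (x - y)
      inf := fun x y => x - p (x - y)
      le_sup_left := fun a b => by
        show f a ≤ f (b + p (a - b)); rw [hsup]; exact le_sup_left
      le_sup_right := fun a b => by
        show f b ≤ f (b + p (a - b)); rw [hsup]; exact le_sup_right
      sup_le := fun a b c h1 h2 => by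
        show f (b + p (a - b)) ≤ f c; rw [hsup]; exact sup_le h1 h2
      inf_le_left := fun a b => by
        show f (a - p (a - b)) ≤ f a; rw [hinf]; exact inf_le_left
      inf_le_right := fun a b => by
        show f (a - p (a - b)) ≤ f b; rw [hinf]; exact inf_le_right
      le_inf := fun a b c h1 h2 => by
        show f a ≤ f (b - p (b - c)); rw [hinf]; exact le_inf h1 h2 }
  refine ⟨L, ?_, ?_⟩
  · intro a b c h
    have h' : f a ≤ f b := h
    show f (c + a) ≤ f (c + b)
    rw [map_add, map_add]
    exact add_le_add_right h' _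
  · intro a b h
    show f a ≤ f 0
    rw [map_zero]
    intro i
    by_contra hcon
    have hpos : 0 < f a i := by simpa using hcon
    obtain ⟨n, hn⟩ := exists_nat_gt (f b i / f a i)
    rw [div_lt_iff₀ hpos] at hn
    have h1 : f (n • a) ≤ f b := h n
    have h2 := h1 i
    rw [map_nsmul] at h2
    simp only [Pi.smul_apply, nsmul_eq_mul] at h2
    linarith

/-- Solid subgroups. -/
theorem solid {I : Type v} (A : I → Type u) [∀ i, AddCommGroup (A i)]
    (hA : ∀ i, TorsionFree (A i)) (hc : ∀ i, #(A i) ≤ 𝔠)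
    (G : AddSubgroup (∀ i, A i))
    (hG : ∀ x ∈ G, ∀ J : Set I, ∃ y ∈ G, (∀ i ∈ J, y i = x i) ∧ ∀ i ∉ J, y i = 0) :
    ArchLatticeOrderable G := by
  classical
  choose e he using fun i => real_embedding (A i) (hA i) (hc i)
  let f : G →+ (I → ℝ) :=
    { toFun := fun x i => e i ((x : ∀ i, A i) i)
      map_zero' := by funext i; simp
      map_add' := fun x y => by funext i; simp }
  refine orderable_of_embedding f ?_ ?_
  · intro x y h
    apply Subtype.ext
    funext i
    exact he i (congrFun h i)
  · intro x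
    obtain ⟨y, hy, h1, h2⟩ := hG x.1 x.2 {i | 0 < e i ((x : ∀ i, A i) i)}
    refine ⟨⟨y, hy⟩, ?_⟩
    funext i
    show e i (y i) = e i ((x : ∀ i, A i) i) ⊔ 0
    by_cases hi : 0 < e i ((x : ∀ i, A i) i)
    · rw [h1 i hi, sup_eq_left.2 hi.le]
    · rw [h2 i hi, map_zero, sup_eq_right.2 (not_lt.1 hi)]

/-- For a set `S` of integers `n ≥ 0`: the subgroup of `∏ A i` of the families `x` such that, for
every `n ∈ S`, all but finitely many coordinates `x i` lie in `n A i`. -/
def NullFamilies {I : Type v} (A : I → Type u) [∀ i, AddCommGroup (A i)] (S : Set ℕ) :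
    AddSubgroup (∀ i, A i) where
  carrier := {x | ∀ n ∈ S, {i | ¬ ∃ a : A i, n • a = x i}.Finite}
  zero_mem' := by
    intro n _
    have : {i | ¬ ∃ a : A i, n • a = (0 : ∀ i, A i) i} = ∅ := by
      ext i
      simp only [Set.mem_ofPred_eq, Set.mem_empty_iff_false, iff_false, not_not]
      exact ⟨0, by simp⟩
    rw [this]
    exact Set.finite_empty
  add_mem' := by
    intro x y hx hy n hn
    refine ((hx n hn).union (hy n hn)).subset ?_
    intro i hi
    by_contra hcon
    simp only [Set.mem_union, Set.mem_ofPred_eq, not_or, not_not] at hcon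
    obtain ⟨⟨a, ha⟩, ⟨b, hb⟩⟩ := hcon
    exact hi ⟨a + b, by rw [smul_add, ha, hb]; rfl⟩
  neg_mem' := by
    intro x hx n hn
    refine (hx n hn).subset ?_
    intro i hi
    rintro ⟨a, ha⟩
    exact hi ⟨-a, by rw [smul_neg, ha]; rfl⟩

/-- The class of torsion-free groups admitting an Archimedean lattice ordering contains every
solid subgroup of a product of torsion-free groups of size at most continuum; in particular all
products, direct sums, and groups of null families. -/
theorem result :
    (∀ (I : Type v) (A : I → Type u) [∀ i, AddCommGroup (A i)],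
      (∀ i, TorsionFree (A i)) → (∀ i, #(A i) ≤ 𝔠) →
      ∀ G : AddSubgroup (∀ i, A i),
        (∀ x ∈ G, ∀ J : Set I, ∃ y ∈ G, (∀ i ∈ J, y i = x i) ∧ ∀ i ∉ J, y i = 0) →
        ArchLatticeOrderable G) ∧
    (∀ (I : Type v) (A : I → Type u) [∀ i, AddCommGroup (A i)],
      (∀ i, TorsionFree (A i)) → (∀ i, #(A i) ≤ 𝔠) →
      ∀ S : Set ℕ, ArchLatticeOrderable (NullFamilies A S)) := by
  classical
  refine ⟨fun I A _ hA hc G hG => solid A hA hc G hG, fun I A _ hA hc S => ?_⟩
  refine solid A hA hc _ ?_
  intro x hx J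
  refine ⟨fun i => if i ∈ J then x i else 0, ?_, fun i hi => by simp [hi], fun i hi => by simp [hi]⟩
  intro n hn
  refine (hx n hn).subset ?_
  intro i hi
  rintro ⟨a, ha⟩
  by_cases hJ : i ∈ J
  · exact hi ⟨a, by simp [hJ, ha]⟩
  · exact hi ⟨0, by simp [hJ]⟩

end Pool.Agent.Results.MP_764a00_al.SolidSubgroups
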